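import Mathlib

/-!
# States determined by their Pauli stabilisers

`V` is a finite vector space over the field with two elements, a state is a function `V → ℂ`.
The Pauli operators are `ψ ↦ (x ↦ c * sg (ℓ x) * ψ (x + a))`.  A state is `PD` (Pauli determined)
if every state that is fixed by all Pauli operators fixing `ψ` is a multiple of `ψ`.
-/

namespace Pool.Agent.W963.StabRank

open Finset

/-- the nontrivial additive character of `ZMod 2` -/
noncomputable def sg (t : ZMod 2) : ℂ := if t = 0 then 1 else -1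

@[simp] lemma sg_zero : sg 0 = 1 := by simp [sg]
@[simp] lemma sg_one : sg 1 = -1 := by simp [sg]

lemma zmod2_cases (t : ZMod 2) : t = 0 ∨ t = 1 := by
  revert t; decide

lemma sg_add (s t : ZMod 2) : sg (s + t) = sg s * sg t := by
  rcases zmod2_cases s with rfl | rfl <;> rcases zmod2_cases t with rfl | rfl <;> simp [sg]
  have : (1 : ZMod 2) + 1 = 0 := by decide
  simp [this]

lemma sg_sq (s : ZMod 2) : sg s * sg s = 1 := by
  rcases zmod2_cases s with rfl | rfl <;> simp [sg]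

lemma sg_ne_zero (s : ZMod 2) : sg s ≠ 0 := by
  rcases zmod2_cases s with rfl | rfl <;> simp [sg]

section

variable {V W : Type} [AddCommGroup V] [Module (ZMod 2) V] [AddCommGroup W] [Module (ZMod 2) W]

lemma add_self2 (x : V) : x + x = 0 := by
  have h : (2 : ZMod 2) • x = x + x := two_smul _ _
  have h2 : (2 : ZMod 2) = 0 := by decide
  rw [← h, h2, zero_smul]

lemma add_add_self2 (x a : V) : x + a + a = x := by
  rw [add_assoc, add_self2, add_zero]

/-- the Pauli operator `(a, ℓ, c)` fixes `ψ` -/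
def Fixes (a : V) (ℓ : V →ₗ[ZMod 2] ZMod 2) (c : ℂ) (ψ : V → ℂ) : Prop :=
  ∀ x, c * sg (ℓ x) * ψ (x + a) = ψ x

/-- `ψ` is determined up to a scalar by the Pauli operators fixing it -/
def PD (ψ : V → ℂ) : Prop :=
  ∀ φ : V → ℂ, (∀ a ℓ c, Fixes a ℓ c ψ → Fixes a ℓ c φ) → ∃ t : ℂ, ∀ x, φ x = t * ψ x

lemma pd_zero : PD (fun _ : V => (0 : ℂ)) := by
  intro φ h
  refine ⟨0, fun x => ?_⟩
  have := h 0 0 0 (fun x => by simp) x
  simpa using this.symm

lemma fixes_smul {a : V} {ℓ : V →ₗ[ZMod 2] ZMod 2} {c : ℂ} {ψ : V → ℂ} (t : ℂ)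
    (h : Fixes a ℓ c ψ) : Fixes a ℓ c (fun x => t * ψ x) := by
  intro x
  have := h x
  calc c * sg (ℓ x) * (t * ψ (x + a)) = t * (c * sg (ℓ x) * ψ (x + a)) := by ring
    _ = _ := by rw [this]

lemma pd_smul {ψ : V → ℂ} (h : PD ψ) (t : ℂ) : PD (fun x => t * ψ x) := by
  by_cases ht : t = 0
  · subst ht; simpa using (pd_zero (V := V))
  intro φ hφ
  obtain ⟨u, hu⟩ := h φ (fun a ℓ c hf => hφ a ℓ c (fixes_smul t hf))
  refine ⟨u / t, fun x => ?_⟩
  rw [hu x]; field_simp

lemma pd_translate {ψ : V → ℂ} (h : PD ψ) (b : V) : PD (fun x => ψ (x + b)) := by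
  intro φ hφ
  obtain ⟨u, hu⟩ := h (fun x => φ (x + b)) (by
    intro a ℓ c hf x
    have h1 : Fixes a ℓ (c * sg (ℓ b)) (fun x => ψ (x + b)) := by
      intro y
      have := hf (y + b)
      simp only [map_add, sg_add] at this
      have e : y + a + b = y + b + a := by abel
      simp only [e]
      rw [← this]; ring
    have h2 := hφ a ℓ _ h1 (x + b)
    simp only [map_add, sg_add] at h2
    have e : x + b + a = x + a + b := by abel
    rw [e] at h2
    have h3 := sg_sq (ℓ b)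
    calc c * sg (ℓ x) * φ (x + a + b)
        = c * (sg (ℓ b) * sg (ℓ b)) * sg (ℓ x) * φ (x + a + b) := by rw [h3]; ring
      _ = φ (x + b) := by rw [← h2]; ring)
  refine ⟨u, fun x => ?_⟩
  have := hu (x + b)
  simpa [add_add_self2] using this

lemma pd_equiv {ψ : W → ℂ} (h : PD ψ) (e : V ≃ₗ[ZMod 2] W) : PD (fun x => ψ (e x)) := by
  intro φ hφ
  obtain ⟨u, hu⟩ := h (fun y => φ (e.symm y)) (by
    intro a ℓ c hf y
    have h1 : Fixes (e.symm a) (ℓ.comp e.toLinearMap) c (fun x => ψ (e x)) := by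
      intro x
      have := hf (e x)
      simpa using this
    have h2 := hφ _ _ _ h1 (e.symm y)
    simpa using h2)
  refine ⟨u, fun x => ?_⟩
  have := hu (e x)
  simpa using this

/-- quadratic phases are Pauli determined -/
lemma pd_phase {Q : V → ℂ} (hQ0 : ∀ x, Q x ≠ 0)
    (hQ : ∀ a : V, ∃ (ℓ : V →ₗ[ZMod 2] ZMod 2) (c : ℂ), ∀ x, Q (x + a) = c * sg (ℓ x) * Q x) :
    PD Q := by
  intro φ hφ
  refine ⟨φ 0 / Q 0, fun a => ?_⟩
  obtain ⟨ℓ, c, h⟩ := hQ a
  have hc : c ≠ 0 := by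
    intro h0
    have := h 0
    rw [h0] at this
    simp at this
    exact hQ0 _ this
  have h1 : Fixes a ℓ c⁻¹ Q := by
    intro x
    rw [h x]
    have := sg_sq (ℓ x)
    calc c⁻¹ * sg (ℓ x) * (c * sg (ℓ x) * Q x) = (c⁻¹ * c) * (sg (ℓ x) * sg (ℓ x)) * Q x := by ring
      _ = Q x := by rw [this, inv_mul_cancel₀ hc]; ring
  have h2 := hφ _ _ _ h1 0
  have h3 := h 0
  simp only [map_zero, sg_zero, zero_add, mul_one] at h2 h3
  rw [h3, ← h2]
  have := hQ0 0
  field_simp

lemma pd_const (t : ℂ) : PD (fun _ : V => t) := by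
  by_cases ht : t = 0
  · subst ht; exact pd_zero
  · exact pd_phase (fun _ => ht) (fun a => ⟨0, 1, fun x => by simp⟩)

/-- tensor products -/
lemma pd_tensor {ψ : V → ℂ} {φ : W → ℂ} (hψ : PD ψ) (hφ : PD φ) :
    PD (fun p : V × W => ψ p.1 * φ p.2) := by
  intro Φ hΦ
  have h1 : ∀ w, ∃ t : ℂ, ∀ x, Φ (x, w) = t * ψ x := by
    intro w
    apply hψ
    intro a ℓ c hf x
    have h2 : Fixes (a, (0 : W)) (ℓ.comp (LinearMap.fst (ZMod 2) V W)) c
        (fun p : V × W => ψ p.1 * φ p.2) := by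
      rintro ⟨x, y⟩
      have := hf x
      simp only [LinearMap.comp_apply, LinearMap.fst_apply, Prod.mk_add_mk, add_zero]
      calc c * sg (ℓ x) * (ψ (x + a) * φ y) = (c * sg (ℓ x) * ψ (x + a)) * φ y := by ring
        _ = _ := by rw [this]
    have h3 := hΦ _ _ _ h2 (x, w)
    simpa using h3
  choose t ht using h1
  by_cases h0 : ∀ x, ψ x = 0
  · refine ⟨0, ?_⟩
    rintro ⟨x, w⟩
    rw [ht w x, h0 x]; simp
  · push Not at h0
    obtain ⟨x0, hx0⟩ := h0
    obtain ⟨u, hu⟩ := hφ t (by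
      intro a ℓ c hf w
      have h2 : Fixes ((0 : V), a) (ℓ.comp (LinearMap.snd (ZMod 2) V W)) c
          (fun p : V × W => ψ p.1 * φ p.2) := by
        rintro ⟨x, y⟩
        have := hf y
        simp only [LinearMap.comp_apply, LinearMap.snd_apply, Prod.mk_add_mk, add_zero]
        calc c * sg (ℓ y) * (ψ x * φ (y + a)) = ψ x * (c * sg (ℓ y) * φ (y + a)) := by ring
          _ = _ := by rw [this]
      have h3 := hΦ _ _ _ h2 (x0, w)
      simp only [LinearMap.comp_apply, LinearMap.snd_apply, Prod.mk_add_mk, add_zero, ht] at h3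
      have h4 : (c * sg (ℓ w) * t (w + a)) * ψ x0 = t w * ψ x0 := by rw [← h3]; ring
      exact mul_right_cancel₀ hx0 h4)
    refine ⟨u, ?_⟩
    rintro ⟨x, w⟩
    simp only
    rw [ht w x, hu w]; ring

/-- restriction to the hyperplane where the last bit is `0` -/
lemma pd_restrict {ψ : V × ZMod 2 → ℂ} (hψ : PD ψ) : PD (fun x => ψ (x, 0)) := by
  intro φ hφ
  by_cases hz : ∀ x, ψ (x, 0) = 0
  · have := hφ 0 0 0 (fun x => by simp [hz])
    refine ⟨0, fun x => ?_⟩
    have := this x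
    simpa using this.symm
  push Not at hz
  obtain ⟨x0, hx0⟩ := hz
  have spl : ∀ (ℓ : V × ZMod 2 →ₗ[ZMod 2] ZMod 2) (x : V) (y : ZMod 2),
      ℓ (x, y) = ℓ (x, 0) + ℓ (0, y) := by
    intro ℓ x y
    rw [← map_add]; simp
  have h11 : (1 : ZMod 2) + 1 = 0 := by decide
  by_cases hex : ∃ a ℓ c, Fixes ((a, 1) : V × ZMod 2) ℓ c ψ
  · obtain ⟨a0, ℓ0, c0, h0⟩ := hex
    -- relations for ψ
    have r0 : ∀ x, c0 * sg (ℓ0 (x, 0)) * ψ (x + a0, 1) = ψ (x, 0) := by
      intro x; have := h0 (x, 0); simpa using this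
    have r1 : ∀ x, c0 * sg (ℓ0 (x, 1)) * ψ (x + a0, 0) = ψ (x, 1) := by
      intro x; have := h0 (x, 1); simpa [h11] using this
    -- the square
    have hsq : c0 * c0 * sg (ℓ0 (a0, 0)) * sg (ℓ0 (0, 1)) = 1 := by
      have e1 := r0 x0
      rw [← r1 (x0 + a0), add_add_self2, spl ℓ0 (x0 + a0) 1,
        show ((x0 + a0, (0 : ZMod 2)) : V × ZMod 2) = (x0, 0) + (a0, 0) by simp, map_add, sg_add,
        sg_add] at e1
      have e2 := sg_sq (ℓ0 (x0, 0))
      have e3 : (c0 * c0 * sg (ℓ0 (a0, 0)) * sg (ℓ0 (0, 1))) * ψ (x0, 0) = 1 * ψ (x0, 0) := by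
        calc _ = c0 * c0 * sg (ℓ0 (a0, 0)) * sg (ℓ0 (0, 1)) *
              (sg (ℓ0 (x0, 0)) * sg (ℓ0 (x0, 0))) * ψ (x0, 0) := by rw [e2]; ring
          _ = c0 * sg (ℓ0 (x0, 0)) * (c0 * (sg (ℓ0 (x0, 0)) * sg (ℓ0 (a0, 0)) * sg (ℓ0 (0, 1))) *
              ψ (x0, 0)) := by ring
          _ = ψ (x0, 0) := e1
          _ = 1 * ψ (x0, 0) := by ring
      exact mul_right_cancel₀ hx0 e3
    let φ' : V × ZMod 2 → ℂ := fun p =>
      if p.2 = 0 then φ p.1 else c0 * sg (ℓ0 (p.1, 1)) * φ (p.1 + a0)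
    have φ0 : ∀ x, φ' (x, 0) = φ x := fun x => by simp [φ']
    have φ1 : ∀ x, φ' (x, 1) = c0 * sg (ℓ0 (x, 1)) * φ (x + a0) := fun x => by simp [φ']
    -- g0 fixes φ'
    have hg0 : Fixes (a0, 1) ℓ0 c0 φ' := by
      rintro ⟨x, y⟩
      rcases zmod2_cases y with rfl | rfl
      · simp only [Prod.mk_add_mk, zero_add]
        rw [φ1, φ0, add_add_self2, spl ℓ0 (x + a0) 1,
          show ((x + a0, (0 : ZMod 2)) : V × ZMod 2) = (x, 0) + (a0, 0) by simp, map_add, sg_add,
          sg_add]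
        have e2 := sg_sq (ℓ0 (x, 0))
        calc c0 * sg (ℓ0 (x, 0)) * (c0 * (sg (ℓ0 (x, 0)) * sg (ℓ0 (a0, 0)) * sg (ℓ0 (0, 1))) * φ x)
            = (c0 * c0 * sg (ℓ0 (a0, 0)) * sg (ℓ0 (0, 1))) *
              (sg (ℓ0 (x, 0)) * sg (ℓ0 (x, 0))) * φ x := by ring
          _ = φ x := by rw [hsq, e2]; ring
      · simp only [Prod.mk_add_mk, h11]
        rw [φ1, φ0]
    -- elements with second component 0
    have hα0 : ∀ a ℓ c, Fixes ((a, 0) : V × ZMod 2) ℓ c ψ → Fixes (a, 0) ℓ c φ' := by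
      intro a ℓ c hf
      have hr : Fixes a (ℓ.comp (LinearMap.inl (ZMod 2) V (ZMod 2))) c (fun x => ψ (x, 0)) := by
        intro x
        have := hf (x, 0)
        simpa using this
      have hr2 := hφ _ _ _ hr
      have q : ∀ x, c * sg (ℓ (x, 0)) * φ (x + a) = φ x := by
        intro x; have := hr2 x; simpa using this
      have p : ∀ x, c * sg (ℓ (x, 0)) * ψ (x + a, 0) = ψ (x, 0) := by
        intro x; have := hr x; simpa using this
      have p1 : ∀ x, c * sg (ℓ (x, 1)) * ψ (x + a, 1) = ψ (x, 1) := by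
        intro x; have := hf (x, 1); simpa using this
      -- commutation
      have hcomm : sg (ℓ (0, 1)) * sg (ℓ0 (a, 0)) = sg (ℓ (a0, 0)) := by
        have e1 := p1 (x0 + a0)
        rw [← r1 (x0 + a0), ← r1 (x0 + a0 + a), add_add_self2,
          show x0 + a0 + a + a0 = x0 + a by
            rw [add_right_comm x0 a0 a, add_add_self2]] at e1
        have e0 := p x0
        rw [spl ℓ (x0 + a0) 1, spl ℓ0 (x0 + a0 + a) 1, spl ℓ0 (x0 + a0) 1,
          show ((x0 + a0, (0 : ZMod 2)) : V × ZMod 2) = (x0, 0) + (a0, 0) by simp,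
          show ((x0 + a0 + a, (0 : ZMod 2)) : V × ZMod 2) = (x0, 0) + (a0, 0) + (a, 0) by simp]
          at e1
        simp only [map_add, sg_add] at e1
        have s1 := sg_sq (ℓ0 (x0, 0))
        have s2 := sg_sq (ℓ0 (a0, 0))
        have s3 := sg_sq (ℓ0 (0, 1))
        have hc0 : c0 ≠ 0 := by
          intro h; rw [h] at hsq; simp at hsq
        have n1 := sg_ne_zero (ℓ0 (x0, 0))
        have n2 := sg_ne_zero (ℓ0 (a0, 0))
        have n3 := sg_ne_zero (ℓ0 (0, 1))
        have e2 : (sg (ℓ (0, 1)) * sg (ℓ0 (a, 0)) * sg (ℓ (a0, 0))) *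
            (c * sg (ℓ (x0, 0)) * ψ (x0 + a, 0)) = ψ (x0, 0) := by
          have hne : c0 * (sg (ℓ0 (x0, 0)) * sg (ℓ0 (a0, 0)) * sg (ℓ0 (0, 1))) ≠ 0 := by
            exact mul_ne_zero hc0 (mul_ne_zero (mul_ne_zero n1 n2) n3)
          apply mul_left_cancel₀ hne
          rw [← e1]; ring
        rw [e0] at e2
        have e3 : sg (ℓ (0, 1)) * sg (ℓ0 (a, 0)) * sg (ℓ (a0, 0)) = 1 := by
          apply mul_right_cancel₀ hx0
          rw [e2, one_mul]
        calc sg (ℓ (0, 1)) * sg (ℓ0 (a, 0))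
            = sg (ℓ (0, 1)) * sg (ℓ0 (a, 0)) * (sg (ℓ (a0, 0)) * sg (ℓ (a0, 0))) := by
              rw [sg_sq]; ring
          _ = (sg (ℓ (0, 1)) * sg (ℓ0 (a, 0)) * sg (ℓ (a0, 0))) * sg (ℓ (a0, 0)) := by ring
          _ = _ := by rw [e3, one_mul]
      rintro ⟨x, y⟩
      rcases zmod2_cases y with rfl | rfl
      · simp only [Prod.mk_add_mk, add_zero, φ0]
        exact q x
      · simp only [Prod.mk_add_mk, add_zero, φ1]
        have e := q (x + a0)
        rw [show x + a0 + a = x + a + a0 by abel] at e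
        rw [← e, spl ℓ x 1, spl ℓ0 (x + a) 1, spl ℓ0 x 1,
          show ((x + a0, (0 : ZMod 2)) : V × ZMod 2) = (x, 0) + (a0, 0) by simp,
          show ((x + a, (0 : ZMod 2)) : V × ZMod 2) = (x, 0) + (a, 0) by simp]
        simp only [map_add, sg_add]
        rw [← hcomm]
        ring
    -- all elements
    obtain ⟨t, ht⟩ := hψ φ' (by
      rintro ⟨a, y⟩ ℓ c hf
      rcases zmod2_cases y with rfl | rfl
      · exact hα0 a ℓ c hf
      · -- product with g0
        have hprod : ∀ Ψ : V × ZMod 2 → ℂ, Fixes (a0, 1) ℓ0 c0 Ψ → 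
            (Fixes (a, 1) ℓ c Ψ ↔ Fixes (a + a0, 0) (ℓ + ℓ0) (c * c0 * sg (ℓ0 (a, 1))) Ψ) := by
          intro Ψ hΨ
          constructor
          · intro hf z
            have e1 := hf z
            have e2 := hΨ (z + (a, 1))
            rw [show z + (a, 1) + (a0, 1) = z + (a + a0, 0) by
              rw [add_assoc]; simp [h11]] at e2
            rw [← e1, ← e2]
            simp only [LinearMap.add_apply, map_add, sg_add]
            ring
          · intro hf z
            have e1 := hf z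
            have e2 := hΨ (z + (a, 1))
            rw [show z + (a, 1) + (a0, 1) = z + (a + a0, 0) by
              rw [add_assoc]; simp [h11]] at e2
            rw [← e1, ← e2]
            simp only [LinearMap.add_apply, map_add, sg_add]
            ring
        rw [hprod φ' hg0]
        exact hα0 _ _ _ ((hprod ψ h0).1 hf))
    exact ⟨t, fun x => by rw [← φ0 x, ht (x, 0)]⟩
  · -- all stabilisers have second component 0
    let φ' : V × ZMod 2 → ℂ := fun p => if p.2 = 0 then φ p.1 else 0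
    have φ0 : ∀ x, φ' (x, 0) = φ x := fun x => by simp [φ']
    have φ1 : ∀ x, φ' (x, 1) = 0 := fun x => by simp [φ']
    obtain ⟨t, ht⟩ := hψ φ' (by
      rintro ⟨a, y⟩ ℓ c hf
      rcases zmod2_cases y with rfl | rfl
      · have hr : Fixes a (ℓ.comp (LinearMap.inl (ZMod 2) V (ZMod 2))) c (fun x => ψ (x, 0)) := by
          intro x
          have := hf (x, 0)
          simpa using this
        have hr2 := hφ _ _ _ hr
        rintro ⟨x, y⟩
        rcases zmod2_cases y with rfl | rfl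
        · have := hr2 x
          simp only [Prod.mk_add_mk, add_zero, φ0]
          simpa using this
        · simp only [Prod.mk_add_mk, add_zero, φ1, mul_zero]
      · exact absurd ⟨a, ℓ, c, hf⟩ hex)
    exact ⟨t, fun x => by rw [← φ0 x, ht (x, 0)]⟩

/-- the Hadamard transform of the last bit preserves `PD` -/
lemma pd_hadamard {ψ : V × ZMod 2 → ℂ} (hψ : PD ψ) :
    PD (fun p : V × ZMod 2 => ψ (p.1, 0) + sg p.2 * ψ (p.1, 1)) := by
  intro φ hφ
  have h11 : (1 : ZMod 2) + 1 = 0 := by decide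
  have spl : ∀ (ℓ : V × ZMod 2 →ₗ[ZMod 2] ZMod 2) (x : V) (y : ZMod 2),
      ℓ (x, y) = ℓ (x, 0) + ℓ (0, 1) * y := by
    intro ℓ x y
    have e : ((x, y) : V × ZMod 2) = (x, 0) + y • (0, 1) := by simp
    rw [e, map_add, map_smul, smul_eq_mul, mul_comm]
  -- transform of stabilisers
  have key : ∀ (Ψ : V × ZMod 2 → ℂ) (a : V) (α : ZMod 2) (ℓ : V × ZMod 2 →ₗ[ZMod 2] ZMod 2) (c : ℂ),
      Fixes (a, α) ℓ c Ψ →
      Fixes (a, ℓ (0, 1)) ((ℓ.comp (LinearMap.inl (ZMod 2) V (ZMod 2))).comp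
          (LinearMap.fst (ZMod 2) V (ZMod 2)) + α • LinearMap.snd (ZMod 2) V (ZMod 2))
        (c * sg (ℓ (0, 1) * α)) (fun p : V × ZMod 2 => Ψ (p.1, 0) + sg p.2 * Ψ (p.1, 1)) := by
    intro Ψ a α ℓ c hf
    rintro ⟨x, y⟩
    have e0 := hf (x, 0)
    have e1 := hf (x, 1)
    simp only [Prod.mk_add_mk, zero_add] at e0 e1
    rw [spl ℓ x 1, mul_one, sg_add] at e1
    simp only [LinearMap.add_apply, LinearMap.comp_apply, LinearMap.inl_apply, LinearMap.fst_apply,
      LinearMap.smul_apply, LinearMap.snd_apply, smul_eq_mul, Prod.mk_add_mk, sg_add]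
    rw [← e0, ← e1]
    rcases zmod2_cases α with rfl | rfl
    · simp only [mul_zero, zero_mul, sg_zero, mul_one, add_zero]
      ring_nf
    · simp only [mul_one, one_mul, h11]
      have s1 := sg_sq (ℓ (0, 1))
      have s2 := sg_sq y
      calc c * sg (ℓ (0, 1)) * (sg (ℓ (x, 0)) * sg y) *
            (Ψ (x + a, 0) + sg y * sg (ℓ (0, 1)) * Ψ (x + a, 1))
          = c * sg (ℓ (0, 1)) * sg (ℓ (x, 0)) * sg y * Ψ (x + a, 0) +
            c * (sg (ℓ (0, 1)) * sg (ℓ (0, 1))) * sg (ℓ (x, 0)) * (sg y * sg y) * Ψ (x + a, 1) := by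
            ring
        _ = _ := by rw [s1, s2]; ring
  -- inverse transform
  obtain ⟨t, ht⟩ := hψ (fun p : V × ZMod 2 => φ (p.1, 0) + sg p.2 * φ (p.1, 1)) (by
    rintro ⟨a, α⟩ ℓ c hf
    have h1 := hφ _ _ _ (key ψ a α ℓ c hf)
    have h2 := key φ _ _ _ _ h1
    intro z
    have h3 := h2 z
    rcases z with ⟨x, y⟩
    simp only [LinearMap.add_apply, LinearMap.comp_apply, LinearMap.inl_apply, LinearMap.fst_apply,
      LinearMap.smul_apply, LinearMap.snd_apply, smul_eq_mul, Prod.mk_add_mk, sg_add, map_zero,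
      mul_one, zero_add, mul_zero, add_zero] at h3 ⊢
    rw [← h3, spl ℓ x y, sg_add]
    have s1 := sg_sq (ℓ (0, 1) * α)
    rw [mul_comm α (ℓ (0, 1))]
    calc _ = c * (1 * (sg (ℓ (x, 0)) * sg (ℓ (0, 1) * y))) *
            (φ (x + a, 0) + sg y * sg α * φ (x + a, 1)) := by ring
      _ = _ := by rw [← s1]; ring)
  refine ⟨t / 2, ?_⟩
  rintro ⟨x, y⟩
  have t0 := ht (x, 0)
  have t1 := ht (x, 1)
  simp only [sg_zero, sg_one, one_mul, neg_mul] at t0 t1 ⊢
  rcases zmod2_cases y with rfl | rfl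
  · simp only [sg_zero, one_mul]
    linear_combination (t0 + t1) / 2
  · simp only [sg_one, neg_mul, one_mul]
    linear_combination (t0 - t1) / 2

/-- summation over the last bit -/
lemma pd_sum_bit {ψ : V × ZMod 2 → ℂ} (hψ : PD ψ) : PD (fun x => ψ (x, 0) + ψ (x, 1)) := by
  have := pd_restrict (pd_hadamard hψ)
  simpa using this

/-- `(V × F^n) × F ≃ V × F^(n+1)` -/
def consEquiv (V : Type) [AddCommGroup V] [Module (ZMod 2) V] (n : ℕ) :
    ((V × (Fin n → ZMod 2)) × ZMod 2) ≃ₗ[ZMod 2] (V × (Fin (n + 1) → ZMod 2)) where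
  toFun p := (p.1.1, Fin.cons p.2 p.1.2)
  invFun q := ((q.1, Fin.tail q.2), q.2 0)
  map_add' p q := by
    ext i
    · simp
    · refine Fin.cases ?_ (fun j => ?_) i <;> simp
  map_smul' c p := by
    ext i
    · simp
    · refine Fin.cases ?_ (fun j => ?_) i <;> simp
  left_inv p := by simp
  right_inv q := by simp

lemma consEquiv_apply (n : ℕ) (x : V) (w : Fin n → ZMod 2) (t : ZMod 2) :
    consEquiv V n ((x, w), t) = (x, Fin.cons t w) := rfl

lemma pd_restrict_fin (n : ℕ) : ∀ (V : Type) [AddCommGroup V] [Module (ZMod 2) V]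
    (ψ : V × (Fin n → ZMod 2) → ℂ), PD ψ → PD (fun x => ψ (x, 0)) := by
  induction n with
  | zero =>
    intro V _ _ ψ h
    let e : V ≃ₗ[ZMod 2] (V × (Fin 0 → ZMod 2)) :=
      { toFun := fun x => (x, 0)
        invFun := fun p => p.1
        map_add' := by intro x y; simp
        map_smul' := by intro x y; simp
        left_inv := by intro x; rfl
        right_inv := by rintro ⟨x, y⟩; ext i; rfl; exact i.elim0 }
    exact pd_equiv h e
  | succ n ih =>
    intro V _ _ ψ h
    have h1 := pd_restrict (pd_equiv h (consEquiv V n))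
    have h2 := ih V _ h1
    have e : ∀ x : V, consEquiv V n ((x, 0), 0) = (x, 0) := by
      intro x
      rw [consEquiv_apply]
      congr 1
      ext i
      refine Fin.cases ?_ (fun j => ?_) i <;> simp
    simpa [e] using h2

lemma pd_sum_fin (n : ℕ) : ∀ (V : Type) [AddCommGroup V] [Module (ZMod 2) V]
    (ψ : V × (Fin n → ZMod 2) → ℂ), PD ψ → PD (fun x => ∑ w, ψ (x, w)) := by
  induction n with
  | zero =>
    intro V _ _ ψ h
    have := pd_restrict_fin 0 V ψ h
    convert this using 2 with x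
    rw [Fintype.sum_unique]
    congr 2
    exact Subsingleton.elim _ _
  | succ n ih =>
    intro V _ _ ψ h
    have h1 := pd_sum_bit (pd_equiv h (consEquiv V n))
    have h2 := ih V _ h1
    convert h2 using 2 with x
    rw [← (Fin.consEquiv (fun _ => ZMod 2)).sum_comp, Fintype.sum_prod_type_right]
    apply Finset.sum_congr rfl
    intro w _
    rw [show (Finset.univ : Finset (ZMod 2)) = {0, 1} by rfl, Finset.sum_pair (by decide)]
    rfl

/-- pullback along an affine map -/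
lemma pd_pullback [Module.Finite (ZMod 2) W] {ψ : W → ℂ} (h : PD ψ) (f : V →ₗ[ZMod 2] W) (b : W) :
    PD (fun x => ψ (f x + b)) := by
  have h0 : PD (fun w => ψ (w + b)) := pd_translate h b
  have h1 : PD (fun p : V × W => (1 : ℂ) * ψ (p.2 + b)) := pd_tensor (pd_const (V := V) 1) h0
  let e : (V × (Fin (Module.finrank (ZMod 2) W) → ZMod 2)) ≃ₗ[ZMod 2] (V × W) :=
    { toFun := fun p => (p.1, (Module.finBasis (ZMod 2) W).equivFun.symm p.2 + f p.1)
      invFun := fun p => (p.1, (Module.finBasis (ZMod 2) W).equivFun (p.2 - f p.1))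
      map_add' := by
        intro x y
        ext
        · rfl
        · simp only [Prod.fst_add, Prod.snd_add, map_add]; abel
      map_smul' := by
        intro x y
        ext
        · rfl
        · simp only [Prod.smul_fst, Prod.smul_snd, map_smul, RingHom.id_apply, smul_add]
      left_inv := by
        rintro ⟨x, y⟩
        simp only [add_sub_cancel_right, LinearEquiv.apply_symm_apply]
      right_inv := by
        rintro ⟨x, y⟩
        simp only [LinearEquiv.symm_apply_apply, sub_add_cancel] }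
  have h2 := pd_restrict_fin _ V _ (pd_equiv h1 e)
  have e0 : ∀ x : V, e (x, 0) = (x, f x) := by
    intro x
    show (x, (Module.finBasis (ZMod 2) W).equivFun.symm 0 + f x) = (x, f x)
    rw [map_zero, zero_add]
  simpa [e0] using h2

lemma pd_pullback0 [Module.Finite (ZMod 2) W] {ψ : W → ℂ} (h : PD ψ) (f : V →ₗ[ZMod 2] W) :
    PD (fun x => ψ (f x)) := by
  simpa using pd_pullback h f 0

lemma pd_mul [Module.Finite (ZMod 2) V] {ψ φ : V → ℂ} (hψ : PD ψ) (hφ : PD φ) :
    PD (fun x => ψ x * φ x) :=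
  pd_pullback0 (pd_tensor hψ hφ) (LinearMap.prod LinearMap.id LinearMap.id)

lemma pd_prod [Module.Finite (ZMod 2) V] {ι : Type*} (s : Finset ι) (ψ : ι → V → ℂ)
    (h : ∀ i ∈ s, PD (ψ i)) : PD (fun x => ∏ i ∈ s, ψ i x) := by
  classical
  induction s using Finset.induction_on with
  | empty => simpa using pd_const (V := V) 1
  | insert a s ha ih =>
    simp only [Finset.prod_insert ha]
    exact pd_mul (h a (Finset.mem_insert_self _ _)) (ih (fun i hi => h i (Finset.mem_insert_of_mem hi)))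

lemma pd_sum [Module.Finite (ZMod 2) W] [Fintype W] {ψ : V × W → ℂ} (h : PD ψ) :
    PD (fun x => ∑ w, ψ (x, w)) := by
  let e : (V × (Fin (Module.finrank (ZMod 2) W) → ZMod 2)) ≃ₗ[ZMod 2] (V × W) :=
    LinearEquiv.prodCongr (LinearEquiv.refl _ _) (Module.finBasis (ZMod 2) W).equivFun.symm
  have h2 := pd_sum_fin _ V _ (pd_equiv h e)
  convert h2 using 2 with x
  rw [← (Module.finBasis (ZMod 2) W).equivFun.symm.toEquiv.sum_comp]
  rfl

/-- the indicator function of `0` -/
lemma pd_delta : PD (fun t : ZMod 2 => if t = 0 then (1 : ℂ) else 0) := by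
  intro φ hφ
  refine ⟨φ 0, fun x => ?_⟩
  have h1 := hφ 0 LinearMap.id 1 (by
    intro x
    rcases zmod2_cases x with rfl | rfl <;> simp) x
  rcases zmod2_cases x with rfl | rfl
  · simp
  · simp at h1 ⊢
    have : (2 : ℂ) * φ 1 = 0 := by linear_combination -h1
    simpa using this

lemma pd_sg : PD sg := by
  apply pd_phase sg_ne_zero
  intro a
  exact ⟨0, sg a, fun x => by simp [sg_add, mul_comm]⟩

lemma pd_cz : PD (fun p : ZMod 2 × ZMod 2 => sg (p.1 * p.2)) := by
  apply pd_phase (fun _ => sg_ne_zero _)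
  rintro ⟨a, b⟩
  refine ⟨b • LinearMap.fst _ _ _ + a • LinearMap.snd _ _ _, sg (a * b), ?_⟩
  rintro ⟨x, y⟩
  simp only [Prod.mk_add_mk, LinearMap.add_apply, LinearMap.smul_apply, LinearMap.fst_apply,
    LinearMap.snd_apply, smul_eq_mul, ← sg_add]
  congr 1
  ring

end

end Pool.Agent.W963.StabRank
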