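import Pool.Agent.W963.StabRank.Basic

/-!
# Counting Pauli determined states, and sign vectors in small subspaces
-/

namespace Pool.Agent.W963.StabRank

open Finset

section

variable {V : Type} [AddCommGroup V] [Module (ZMod 2) V]

lemma fixes_comp {a a' : V} {ℓ ℓ' : V →ₗ[ZMod 2] ZMod 2} {c c' : ℂ} {ψ : V → ℂ}
    (h : Fixes a ℓ c ψ) (h' : Fixes a' ℓ' c' ψ) :
    Fixes (a + a') (ℓ + ℓ') (c * c' * sg (ℓ' a)) ψ := by
  intro x
  have e1 := h x
  have e2 := h' (x + a)
  rw [← e1, ← e2, map_add, sg_add, LinearMap.add_apply, sg_add, add_assoc]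
  ring

/-- the pairs `(a, ℓ)` for which some `(a, ℓ, c)` fixes both `ψ` and `φ` -/
def LL (ψ φ : V → ℂ) : Submodule (ZMod 2) (V × (V →ₗ[ZMod 2] ZMod 2)) where
  carrier := {p | ∃ c, Fixes p.1 p.2 c ψ ∧ Fixes p.1 p.2 c φ}
  add_mem' := by
    rintro ⟨a, ℓ⟩ ⟨a', ℓ'⟩ ⟨c, h1, h2⟩ ⟨c', h1', h2'⟩
    exact ⟨_, fixes_comp h1 h1', fixes_comp h2 h2'⟩
  zero_mem' := ⟨1, fun x => by simp, fun x => by simp⟩
  smul_mem' := by
    rintro t ⟨a, ℓ⟩ ⟨c, h1, h2⟩
    rcases zmod2_cases t with rfl | rfl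
    · rw [zero_smul]
      exact ⟨1, fun x => by simp, fun x => by simp⟩
    · rw [one_smul]
      exact ⟨c, h1, h2⟩

lemma fixes_pow {a : V} {ℓ : V →ₗ[ZMod 2] ZMod 2} {c : ℂ} {ψ : V → ℂ} (h : Fixes a ℓ c ψ)
    {x0 : V} (h0 : ψ x0 ≠ 0) : ∃ k : Fin 4, c = Complex.I ^ (k : ℕ) := by
  have e1 := fixes_comp h h 
  rw [add_self2] at e1
  have e2 := e1 x0
  have e3 : (ℓ + ℓ) x0 = 0 := by rw [LinearMap.add_apply]; exact CharTwo.add_self_eq_zero _
  rw [e3, add_zero, sg_zero, mul_one] at e2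
  have e4 : c * c * sg (ℓ a) = 1 := mul_right_cancel₀ h0 (by rw [e2, one_mul])
  have e5 : c * c = 1 ∨ c * c = -1 := by
    rcases zmod2_cases (ℓ a) with h | h <;> rw [h] at e4 <;> simp at e4
    · exact Or.inl e4
    · right; linear_combination -e4
  rcases e5 with e | e
  · have : (c - 1) * (c + 1) = 0 := by linear_combination e
    rcases mul_eq_zero.1 this with h | h
    · exact ⟨0, by simp; linear_combination h⟩
    · exact ⟨2, by simp; linear_combination h⟩
  · have : (c - Complex.I) * (c + Complex.I) = 0 := by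
      have := Complex.I_sq
      linear_combination e - this
    rcases mul_eq_zero.1 this with h | h
    · exact ⟨1, by simp; linear_combination h⟩
    · refine ⟨3, ?_⟩
      have h3 : Complex.I ^ ((3 : Fin 4) : ℕ) = -Complex.I := by
        show Complex.I ^ 3 = -Complex.I
        rw [pow_succ, Complex.I_sq]; ring
      rw [h3]; linear_combination h

lemma fixes_unique {a : V} {ℓ : V →ₗ[ZMod 2] ZMod 2} {c c' : ℂ} {ψ : V → ℂ} (h : Fixes a ℓ c ψ)
    (h' : Fixes a ℓ c' ψ) {x0 : V} (h0 : ψ x0 ≠ 0) : c = c' := by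
  have e1 := h x0
  have e2 := h' x0
  have h1 : sg (ℓ x0) * ψ (x0 + a) ≠ 0 := by
    intro h2
    apply h0
    rw [← e1, mul_assoc, h2, mul_zero]
  apply mul_right_cancel₀ h1
  rw [← mul_assoc, ← mul_assoc, e1, e2]

lemma exists_family {K W : Type} [Field K] [AddCommGroup W] [Module K W] [Module.Finite K W]
    (L : Submodule K W) (D : ℕ) (hD : Module.finrank K W ≤ D) :
    ∃ g : Fin D → W, (∀ i, g i ∈ L) ∧ L ≤ Submodule.span K (Set.range g) := by
  have h1 : Module.finrank K L ≤ D := (Submodule.finrank_le L).trans hD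
  let b := Module.finBasis K L
  refine ⟨fun i => if h : (i : ℕ) < Module.finrank K L then (b ⟨i, h⟩ : W) else 0, ?_, ?_⟩
  · intro i
    by_cases h : (i : ℕ) < Module.finrank K L
    · simp only [h, dif_pos]; exact (b _).2
    · simp only [h, dif_neg, not_false_eq_true]; exact L.zero_mem
  · intro x hx
    have h2 := b.sum_repr ⟨x, hx⟩
    have h3 : x = ∑ i, (b.repr ⟨x, hx⟩ i) • (b i : W) := by
      have := congrArg (Submodule.subtype L) h2
      rw [map_sum] at this
      simp only [map_smul, Submodule.subtype_apply] at this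
      exact this.symm
    rw [h3]
    apply Submodule.sum_mem
    intro i _
    apply Submodule.smul_mem
    apply Submodule.subset_span
    refine ⟨⟨i, lt_of_lt_of_le i.2 h1⟩, ?_⟩
    simp

/-- the type of data determining a state -/
abbrev Data (V : Type) [AddCommGroup V] [Module (ZMod 2) V] (D : ℕ) : Type :=
  Fin D → (V × (V →ₗ[ZMod 2] ZMod 2)) × Fin 4

def Det {D : ℕ} (δ : Data V D) (ψ : V → ℂ) : Prop :=
  (∀ i, Fixes (δ i).1.1 (δ i).1.2 (Complex.I ^ ((δ i).2 : ℕ)) ψ) ∧
    ∀ φ, (∀ i, Fixes (δ i).1.1 (δ i).1.2 (Complex.I ^ ((δ i).2 : ℕ)) φ) →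
      ∃ t : ℂ, ∀ x, φ x = t * ψ x

lemma exists_det [Module.Finite (ZMod 2) V] (D : ℕ)
    (hD : Module.finrank (ZMod 2) (V × (V →ₗ[ZMod 2] ZMod 2)) ≤ D)
    {ψ : V → ℂ} (h : PD ψ) {x0 : V} (h0 : ψ x0 ≠ 0) : ∃ δ : Data V D, Det δ ψ := by
  obtain ⟨g, hg, hspan⟩ := exists_family (LL ψ ψ) D hD
  choose c hc using hg
  choose k hk using fun i => fixes_pow (hc i).1 h0
  refine ⟨fun i => (g i, k i), fun i => ?_, fun φ hφ => ?_⟩
  · simp only [← hk i]; exact (hc i).1
  · have h1 : LL ψ ψ ≤ LL ψ φ := by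
      refine hspan.trans (Submodule.span_le.2 ?_)
      rintro _ ⟨i, rfl⟩
      refine ⟨c i, (hc i).1, ?_⟩
      have := hφ i
      simp only [← hk i] at this
      exact this
    apply h
    intro a ℓ c hf
    obtain ⟨c', h2, h3⟩ := h1 (show (a, ℓ) ∈ LL ψ ψ from ⟨c, hf, hf⟩)
    rw [fixes_unique hf h2 h0]
    exact h3

lemma exists_dec [Module.Finite (ZMod 2) V] (D : ℕ)
    (hD : Module.finrank (ZMod 2) (V × (V →ₗ[ZMod 2] ZMod 2)) ≤ D) :
    ∃ dec : Data V D → (V → ℂ), ∀ ψ : V → ℂ, PD ψ → ∃ δ, ∃ t : ℂ, ∀ x, ψ x = t * dec δ x := by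
  classical
  refine ⟨fun δ => if h : ∃ ψ, Det δ ψ then h.choose else 0, fun ψ hψ => ?_⟩
  by_cases h0 : ∀ x, ψ x = 0
  · exact ⟨fun _ => 0, 0, fun x => by rw [h0 x]; simp⟩
  · push Not at h0
    obtain ⟨x0, hx0⟩ := h0
    obtain ⟨δ, hδ⟩ := exists_det D hD hψ hx0
    have hex : ∃ ψ, Det δ ψ := ⟨ψ, hδ⟩
    obtain ⟨t, ht⟩ := hex.choose_spec.2 ψ hδ.1
    refine ⟨δ, t, fun x => ?_⟩
    simp only [dif_pos hex]
    exact ht x

end

/-- a subspace spanned by `r` vectors contains at most `2 ^ r` sign vectors -/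
lemma sign_count {X : Type} [Fintype X] [DecidableEq X] (r : ℕ) (T : Fin r → X → ℂ)
    (S : Finset (X → ZMod 2))
    (hS : ∀ h ∈ S, ∃ α : Fin r → ℂ, ∀ x, sg (h x) = ∑ i, α i * T i x) :
    S.card ≤ 2 ^ r := by
  classical
  obtain ⟨b, hb1, hb2, hb3⟩ := exists_linearIndependent ℂ (Set.range fun x : X => fun i : Fin r => T i x)
  have hfin : Finite b := (Set.finite_range _).subset hb1
  have : Fintype b := Fintype.ofFinite b
  have hcard : Fintype.card b ≤ r := by
    have := hb3.fintype_card_le_finrank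
    simpa using this
  have hex : ∀ v : b, ∃ x : X, (fun i : Fin r => T i x) = v := fun v => hb1 v.2
  choose xv hxv using hex
  have hinj : Set.InjOn (fun (h : X → ZMod 2) (v : b) => h (xv v)) S := by
    intro h hh h' hh' heq
    obtain ⟨α, hα⟩ := hS h hh
    obtain ⟨β, hβ⟩ := hS h' hh'
    -- the difference functional
    let f : (Fin r → ℂ) →ₗ[ℂ] ℂ := ∑ i, (α i - β i) • LinearMap.proj i
    have hf : ∀ u : Fin r → ℂ, f u = ∑ i, (α i - β i) * u i := by
      intro u; simp [f, LinearMap.sum_apply]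
    have hf2 : ∀ x, f (fun i => T i x) = sg (h x) - sg (h' x) := by
      intro x
      rw [hf, hα x, hβ x, ← Finset.sum_sub_distrib]
      exact Finset.sum_congr rfl (fun i _ => by ring)
    have hker : Submodule.span ℂ b ≤ LinearMap.ker f := by
      rw [Submodule.span_le]
      intro v hv
      have e := hf2 (xv ⟨v, hv⟩)
      rw [hxv ⟨v, hv⟩] at e
      have e2 := congrFun heq ⟨v, hv⟩
      simp only at e2
      rw [e2, sub_self] at e
      exact e
    rw [hb2] at hker
    funext x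
    have e : f (fun i => T i x) = 0 := hker (Submodule.subset_span ⟨x, rfl⟩)
    rw [hf2] at e
    rcases zmod2_cases (h x) with h1 | h1 <;> rcases zmod2_cases (h' x) with h2 | h2 <;>
      rw [h1, h2] at e ⊢ <;> norm_num at e
  calc S.card = (S.image (fun (h : X → ZMod 2) (v : b) => h (xv v))).card :=
        (Finset.card_image_of_injOn hinj).symm
    _ ≤ Fintype.card (b → ZMod 2) := Finset.card_le_univ _
    _ = 2 ^ Fintype.card b := by simp
    _ ≤ 2 ^ r := Nat.pow_le_pow_right (by norm_num) hcard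

/-- **Counting.** If every sign vector on `V` is a combination of `r` Pauli determined states then
`r` is large. -/
theorem count_bound {V : Type} [AddCommGroup V] [Module (ZMod 2) V] [Fintype V]
    (m r : ℕ) (hm : Fintype.card V = 2 ^ m)
    (h : ∀ f : V → ZMod 2, ∃ T : Fin r → V → ℂ, (∀ i, PD (T i)) ∧
      ∃ α : Fin r → ℂ, ∀ x, sg (f x) = ∑ i, α i * T i x) :
    2 ^ m ≤ r * ((2 * m) * (2 * m + 2) + 1) := by
  classical
  have hfin : Module.Finite (ZMod 2) V := Module.Finite.of_finite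
  have hrank : Module.finrank (ZMod 2) V = m := by
    have := Module.card_eq_pow_finrank (K := ZMod 2) (V := V)
    rw [hm, ZMod.card] at this
    exact (Nat.pow_right_injective (le_refl 2) this).symm
  have hrank2 : Module.finrank (ZMod 2) (V × (V →ₗ[ZMod 2] ZMod 2)) = 2 * m := by
    rw [Module.finrank_prod, Subspace.dual_finrank_eq, hrank]; ring
  obtain ⟨dec, hdec⟩ := exists_dec (V := V) (2 * m) hrank2.le
  -- all sign vectors are covered
  have hfinL : Finite (V →ₗ[ZMod 2] ZMod 2) :=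
    Module.finite_of_finite (ZMod 2)
  have : Fintype (V →ₗ[ZMod 2] ZMod 2) := Fintype.ofFinite _
  have hcardL : Fintype.card (V × (V →ₗ[ZMod 2] ZMod 2)) = 2 ^ (2 * m) := by
    have := Module.card_eq_pow_finrank (K := ZMod 2) (V := V × (V →ₗ[ZMod 2] ZMod 2))
    rw [hrank2, ZMod.card] at this
    exact this
  have hcardD : Fintype.card (Data V (2 * m)) = 2 ^ ((2 * m) * (2 * m + 2)) := by
    rw [Fintype.card_fun, Fintype.card_prod, hcardL, Fintype.card_fin, Fintype.card_fin,
      show 2 ^ (2 * m) * 4 = 2 ^ (2 * m + 2) by rw [pow_add]; norm_num, ← pow_mul]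
    congr 1; ring
  let S : (Fin r → Data V (2 * m)) → Finset (V → ZMod 2) := fun δ =>
    Finset.univ.filter (fun f => ∃ α : Fin r → ℂ, ∀ x, sg (f x) = ∑ i, α i * dec (δ i) x)
  have hcov : (Finset.univ : Finset (V → ZMod 2)) ⊆ Finset.univ.biUnion S := by
    intro f _
    obtain ⟨T, hT, α, hα⟩ := h f
    choose δ t ht using fun i => hdec (T i) (hT i)
    rw [Finset.mem_biUnion]
    refine ⟨δ, Finset.mem_univ _, ?_⟩
    rw [Finset.mem_filter]
    refine ⟨Finset.mem_univ _, fun i => α i * t i, fun x => ?_⟩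
    rw [hα x]
    exact Finset.sum_congr rfl (fun i _ => by rw [ht i x]; ring)
  have h1 : 2 ^ (2 ^ m) ≤ 2 ^ (r * ((2 * m) * (2 * m + 2) + 1)) := by
    calc 2 ^ (2 ^ m) = (Finset.univ : Finset (V → ZMod 2)).card := by
          rw [Finset.card_univ, Fintype.card_fun, ZMod.card, hm]
      _ ≤ (Finset.univ.biUnion S).card := Finset.card_le_card hcov
      _ ≤ ∑ δ : Fin r → Data V (2 * m), (S δ).card := Finset.card_biUnion_le
      _ ≤ ∑ _δ : Fin r → Data V (2 * m), 2 ^ r := by
          apply Finset.sum_le_sum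
          intro δ _
          apply sign_count r (fun i => dec (δ i))
          intro f hf
          exact (Finset.mem_filter.1 hf).2
      _ = 2 ^ (r * ((2 * m) * (2 * m + 2) + 1)) := by
          rw [Finset.sum_const, Finset.card_univ, Fintype.card_fun, hcardD, Fintype.card_fin,
            smul_eq_mul, ← pow_mul, ← pow_add]
          congr 1; ring
  exact (Nat.pow_le_pow_iff_right (by norm_num)).1 h1

end Pool.Agent.W963.StabRank
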