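import Pool.Agent.W963.StabRank.Count

/-!
# States obtained from `N` copies of `(1, √2)` and stabiliser operations
-/

namespace Pool.Agent.W963.StabRank

open Finset

/-- the entries of the vector `(1, √2)` -/
noncomputable def wt (t : ZMod 2) : ℂ := if t = 0 then 1 else (Real.sqrt 2 : ℝ)

@[simp] lemma wt_zero : wt 0 = 1 := by simp [wt]
@[simp] lemma wt_one : wt 1 = (Real.sqrt 2 : ℝ) := by simp [wt]

/-- the entries of the tensor power of `(1, √2)` -/
noncomputable def vp (N : ℕ) (z : Fin N → ZMod 2) : ℂ := ∏ i, wt (z i)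

lemma sqrt_two_sq : ((Real.sqrt 2 : ℝ) : ℂ) * ((Real.sqrt 2 : ℝ) : ℂ) = 2 := by
  rw [← Complex.ofReal_mul, Real.mul_self_sqrt (by norm_num)]; norm_num

section

variable {V W : Type} [AddCommGroup V] [Module (ZMod 2) V] [Module.Finite (ZMod 2) V]
  [AddCommGroup W] [Module (ZMod 2) W] [Module.Finite (ZMod 2) W]

/-- `T` is the contraction of a Pauli determined state with `N` copies of `(1, √2)` -/
def Rep (N : ℕ) (T : V → ℂ) : Prop :=
  ∃ K : V × (Fin N → ZMod 2) → ℂ, PD K ∧ ∀ x, T x = ∑ z, K (x, z) * vp N z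

lemma rep_pd {T : V → ℂ} (h : PD T) (N : ℕ) : Rep N T := by
  refine ⟨fun p => T p.1 * ∏ i : Fin N, (if p.2 i = 0 then 1 else 0), ?_, fun x => ?_⟩
  · apply pd_mul
    · exact pd_pullback0 h (LinearMap.fst (ZMod 2) V (Fin N → ZMod 2))
    · apply pd_prod
      intro i _
      exact pd_pullback0 pd_delta
        ((LinearMap.proj i).comp (LinearMap.snd (ZMod 2) V (Fin N → ZMod 2)))
  · rw [Finset.sum_eq_single (0 : Fin N → ZMod 2)]
    · simp [vp]
    · intro z _ hz
      have : ∃ i, z i ≠ 0 := by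
        by_contra h
        push Not at h
        exact hz (funext h)
      obtain ⟨i, hi⟩ := this
      beta_reduce
      rw [Finset.prod_eq_zero (Finset.mem_univ i) (by simp [hi])]
      simp
    · intro h; exact absurd (Finset.mem_univ _) h

lemma rep_mul {N1 N2 : ℕ} {T1 T2 : V → ℂ} (h1 : Rep N1 T1) (h2 : Rep N2 T2) :
    Rep (N1 + N2) (fun x => T1 x * T2 x) := by
  obtain ⟨K1, hK1, e1⟩ := h1
  obtain ⟨K2, hK2, e2⟩ := h2
  let f1 : (V × (Fin (N1 + N2) → ZMod 2)) →ₗ[ZMod 2] (V × (Fin N1 → ZMod 2)) :=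
    LinearMap.prodMap LinearMap.id (LinearMap.funLeft (ZMod 2) (ZMod 2) (Fin.castAdd N2))
  let f2 : (V × (Fin (N1 + N2) → ZMod 2)) →ₗ[ZMod 2] (V × (Fin N2 → ZMod 2)) :=
    LinearMap.prodMap LinearMap.id (LinearMap.funLeft (ZMod 2) (ZMod 2) (Fin.natAdd N1))
  refine ⟨fun p => K1 (f1 p) * K2 (f2 p), pd_mul (pd_pullback0 hK1 f1) (pd_pullback0 hK2 f2),
    fun x => ?_⟩
  beta_reduce
  rw [e1, e2, Finset.sum_mul_sum, ← Finset.sum_product', Finset.univ_product_univ]
  apply Fintype.sum_equiv (Fin.appendEquiv N1 N2)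
  rintro ⟨z1, z2⟩
  have a1 : f1 (x, Fin.append z1 z2) = (x, z1) := by
    refine Prod.ext rfl ?_
    funext i
    simp [f1, LinearMap.funLeft]
  have a2 : f2 (x, Fin.append z1 z2) = (x, z2) := by
    refine Prod.ext rfl ?_
    funext i
    simp [f2, LinearMap.funLeft]
  have a3 : vp (N1 + N2) (Fin.append z1 z2) = vp N1 z1 * vp N2 z2 := by
    simp [vp, Fin.prod_univ_add]
  simp only [Fin.appendEquiv, Equiv.coe_fn_mk, a1, a2, a3]
  ring

lemma rep_smul {N : ℕ} {T : V → ℂ} (h : Rep N T) (t : ℂ) : Rep N (fun x => t * T x) := by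
  obtain ⟨K, hK, e⟩ := h
  refine ⟨fun p => t * K p, pd_smul hK t, fun x => ?_⟩
  beta_reduce
  rw [e, Finset.mul_sum]
  exact Finset.sum_congr rfl (fun z _ => by ring)

lemma rep_mono {N N' : ℕ} {T : V → ℂ} (h : Rep N T) (hN : N ≤ N') : Rep N' T := by
  obtain ⟨k, rfl⟩ := Nat.exists_eq_add_of_le hN
  have := rep_mul h (rep_pd (pd_const (V := V) 1) k)
  simpa using this

lemma rep_pullback {N : ℕ} {T : W → ℂ} (h : Rep N T) (f : V →ₗ[ZMod 2] W) (b : W) :
    Rep N (fun x => T (f x + b)) := by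
  obtain ⟨K, hK, e⟩ := h
  refine ⟨fun p => K (LinearMap.prodMap f LinearMap.id p + (b, 0)), pd_pullback hK _ _,
    fun x => ?_⟩
  beta_reduce
  rw [e]
  exact Finset.sum_congr rfl (fun z _ => by simp)

lemma rep_sum [Fintype W] {N : ℕ} {T : V × W → ℂ} (h : Rep N T) :
    Rep N (fun x => ∑ w, T (x, w)) := by
  obtain ⟨K, hK, e⟩ := h
  let f : ((V × (Fin N → ZMod 2)) × W) →ₗ[ZMod 2] ((V × W) × (Fin N → ZMod 2)) :=
    LinearMap.prod (LinearMap.prod ((LinearMap.fst _ _ _).comp (LinearMap.fst _ _ _))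
      (LinearMap.snd _ _ _)) ((LinearMap.snd _ _ _).comp (LinearMap.fst _ _ _))
  refine ⟨fun p => ∑ w, K (f (p, w)), pd_sum (pd_pullback0 hK f), fun x => ?_⟩
  simp only [e, Finset.sum_mul]
  rw [Finset.sum_comm]
  rfl

lemma rep_prod {ι : Type*} (s : Finset ι) (N : ℕ) (T : ι → V → ℂ)
    (h : ∀ i ∈ s, Rep N (T i)) : Rep (s.card * N) (fun x => ∏ i ∈ s, T i x) := by
  classical
  induction s using Finset.induction_on with
  | empty => simpa using rep_pd (pd_const (V := V) 1) _
  | insert a s ha ih =>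
    simp only [Finset.prod_insert ha, Finset.card_insert_of_notMem ha]
    have := rep_mul (h a (Finset.mem_insert_self _ _))
      (ih (fun i hi => h i (Finset.mem_insert_of_mem hi)))
    refine rep_mono this (le_of_eq ?_)
    ring

lemma rep_wt0 : Rep 1 wt := by
  refine ⟨fun p => if p.1 + p.2 0 = 0 then 1 else 0, ?_, fun x => ?_⟩
  · exact pd_pullback0 pd_delta (LinearMap.fst (ZMod 2) (ZMod 2) (Fin 1 → ZMod 2) +
      (LinearMap.proj 0).comp (LinearMap.snd (ZMod 2) (ZMod 2) (Fin 1 → ZMod 2)))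
  · rw [Finset.sum_eq_single (fun _ => x)]
    · have : x + x = 0 := CharTwo.add_self_eq_zero _
      simp [this, vp]
    · intro z _ hz
      have : x + z 0 ≠ 0 := by
        intro h
        apply hz
        funext i
        rw [Subsingleton.elim i 0]
        rcases zmod2_cases x with rfl | rfl <;> rcases zmod2_cases (z 0) with h2 | h2 <;>
          rw [h2] at h ⊢ <;> revert h <;> decide
      simp [this]
    · intro h; exact absurd (Finset.mem_univ _) h

lemma rep_wt (f : V →ₗ[ZMod 2] ZMod 2) (b : ZMod 2) : Rep 1 (fun x => wt (f x + b)) :=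
  rep_pullback rep_wt0 f b

/-- the product of thirteen weights -/
noncomputable def gad (x y z w : ZMod 2) : ℂ :=
  sg (z + w) * (wt (1 + z) * wt (1 + z)) * (wt (1 + w) * wt (1 + w)) *
    (wt (1 + z + w) * wt (1 + z + w)) *
    (wt x * wt y * wt w * wt (x + y + w) * wt (1 + x + y) * wt (1 + x + w) * wt (1 + y + w))

lemma gad_sum (x y z : ZMod 2) : gad x y z 0 + gad x y z 1 =
    12 * (Real.sqrt 2 : ℝ) * (if z = x * y then 1 else 0) := by
  have h11 : (1 : ZMod 2) + 1 = 0 := by decide
  have hs := sqrt_two_sq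
  set s : ℂ := ((Real.sqrt 2 : ℝ) : ℂ) with hsdef
  have w1 : wt 1 = s := wt_one
  have hs4 : s ^ 2 = 2 := by rw [pow_two]; exact hs
  rcases zmod2_cases x with rfl | rfl <;> rcases zmod2_cases y with rfl | rfl <;>
    rcases zmod2_cases z with rfl | rfl <;>
    simp only [gad, add_zero, zero_add, h11, sg_zero, sg_one, wt_zero, w1, mul_one, one_mul,
      mul_zero, if_true, one_ne_zero, zero_ne_one, if_false] <;>
    ring_nf <;>
    linear_combination (s * (s ^ 2 + 2) * (s ^ 4 + 3)) * hs4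

lemma rep_gad (f g h k : V →ₗ[ZMod 2] ZMod 2) :
    Rep 13 (fun x => gad (f x) (g x) (h x) (k x)) := by
  have a1 : Rep 0 (fun x => sg (h x + k x)) := rep_pd (pd_pullback0 pd_sg (h + k)) 0
  have z : Rep 1 (fun x => wt (1 + h x)) := by simpa only [add_comm] using rep_wt h 1
  have w : Rep 1 (fun x => wt (1 + k x)) := by simpa only [add_comm] using rep_wt k 1
  have zw : Rep 1 (fun x => wt (1 + h x + k x)) := by
    have := rep_wt (h + k) 1
    simpa only [LinearMap.add_apply, add_comm (h _ + k _) 1, ← add_assoc] using this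
  have b1 : Rep 1 (fun x => wt (f x)) := by simpa only [add_zero] using rep_wt f 0
  have b2 : Rep 1 (fun x => wt (g x)) := by simpa only [add_zero] using rep_wt g 0
  have b3 : Rep 1 (fun x => wt (k x)) := by simpa only [add_zero] using rep_wt k 0
  have b4 : Rep 1 (fun x => wt (f x + g x + k x)) := by
    simpa only [add_zero, LinearMap.add_apply] using rep_wt (f + g + k) 0
  have b5 : Rep 1 (fun x => wt (1 + f x + g x)) := by
    have := rep_wt (f + g) 1
    simpa only [LinearMap.add_apply, add_comm (f _ + g _) 1, ← add_assoc] using this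
  have b6 : Rep 1 (fun x => wt (1 + f x + k x)) := by
    have := rep_wt (f + k) 1
    simpa only [LinearMap.add_apply, add_comm (f _ + k _) 1, ← add_assoc] using this
  have b7 : Rep 1 (fun x => wt (1 + g x + k x)) := by
    have := rep_wt (g + k) 1
    simpa only [LinearMap.add_apply, add_comm (g _ + k _) 1, ← add_assoc] using this
  exact rep_mul (rep_mul (rep_mul (rep_mul a1 (rep_mul z z)) (rep_mul w w)) (rep_mul zw zw))
    (rep_mul (rep_mul (rep_mul (rep_mul (rep_mul (rep_mul b1 b2) b3) b4) b5) b6) b7)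

/-- an exact conjunction gate with thirteen copies -/
lemma rep_and (f g h : V →ₗ[ZMod 2] ZMod 2) :
    Rep 13 (fun x => if h x = f x * g x then (1 : ℂ) else 0) := by
  have h1 : Rep 13 (fun p : V × ZMod 2 => gad (f p.1) (g p.1) (h p.1) p.2) :=
    rep_gad (f.comp (LinearMap.fst (ZMod 2) V (ZMod 2))) (g.comp (LinearMap.fst (ZMod 2) V (ZMod 2)))
      (h.comp (LinearMap.fst (ZMod 2) V (ZMod 2))) (LinearMap.snd (ZMod 2) V (ZMod 2))
  have h2 := rep_smul (rep_sum h1) ((12 * (Real.sqrt 2 : ℝ) : ℂ)⁻¹)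
  have hne : (12 * (Real.sqrt 2 : ℝ) : ℂ) ≠ 0 := by
    apply mul_ne_zero (by norm_num)
    intro h
    have := sqrt_two_sq
    rw [h] at this
    norm_num at this
  convert h2 using 2 with x
  rw [show (Finset.univ : Finset (ZMod 2)) = {0, 1} by rfl, Finset.sum_pair (by decide)]
  rw [gad_sum, ← mul_assoc, inv_mul_cancel₀ hne, one_mul]

end

/-! ### Unary encoding -/

/-- coordinate projection -/
def pr {ι : Type} (i : ι) : (ι → ZMod 2) →ₗ[ZMod 2] ZMod 2 := LinearMap.proj i

@[simp] lemma pr_apply {ι : Type} (i : ι) (x : ι → ZMod 2) : pr i x = x i := rfl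

/-- monomials -/
def mon {s : ℕ} (S : Finset (Fin s)) (x : Fin s → ZMod 2) : ZMod 2 := ∏ i ∈ S, x i

open Classical in
/-- the tensor checking that `e` consists of the values of all monomials at `x` -/
noncomputable def enc (s : ℕ) (p : (Fin s → ZMod 2) × (Finset (Fin s) → ZMod 2)) : ℂ :=
  if ∀ S, p.2 S = mon S p.1 then 1 else 0

open Classical in
/-- one constraint -/
noncomputable def gate (s : ℕ) (S : Finset (Fin s))
    (p : (Fin s → ZMod 2) × (Finset (Fin s) → ZMod 2)) : ℂ :=
  if h : S.Nonempty then (if p.2 S = p.1 h.choose * p.2 (S.erase h.choose) then 1 else 0)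
  else (if p.2 S = 1 then 1 else 0)

lemma gate_eq (s : ℕ) (p : (Fin s → ZMod 2) × (Finset (Fin s) → ZMod 2)) :
    enc s p = ∏ S : Finset (Fin s), gate s S p := by
  classical
  unfold enc
  by_cases h : ∀ S, p.2 S = mon S p.1
  · rw [if_pos h]
    symm
    apply Finset.prod_eq_one
    intro S _
    unfold gate
    by_cases hS : S.Nonempty
    · rw [dif_pos hS, if_pos]
      rw [h, h, mon, mon, Finset.mul_prod_erase _ _ hS.choose_spec]
    · rw [dif_neg hS, if_pos]
      rw [Finset.not_nonempty_iff_eq_empty.1 hS, h, mon, Finset.prod_empty]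
  · rw [if_neg h]
    symm
    by_contra h0
    apply h
    have h1 : ∀ S, gate s S p ≠ 0 := fun S => (Finset.prod_ne_zero_iff.1 h0) S (Finset.mem_univ _)
    have h2 : ∀ n, ∀ S : Finset (Fin s), S.card = n → p.2 S = mon S p.1 := by
      intro n
      induction n with
      | zero =>
        intro S hS
        have h3 := h1 S
        have hS' : ¬ S.Nonempty := by
          rw [Finset.not_nonempty_iff_eq_empty]; exact Finset.card_eq_zero.1 hS
        unfold gate at h3
        rw [dif_neg hS'] at h3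
        have h4 : p.2 S = 1 := by
          by_contra h5; rw [if_neg h5] at h3; exact h3 rfl
        rw [h4, Finset.card_eq_zero.1 hS, mon, Finset.prod_empty]
      | succ n ih =>
        intro S hS
        have h3 := h1 S
        have hS' : S.Nonempty := by rw [← Finset.card_pos]; omega
        unfold gate at h3
        rw [dif_pos hS'] at h3
        have h4 : p.2 S = p.1 hS'.choose * p.2 (S.erase hS'.choose) := by
          by_contra h5; rw [if_neg h5] at h3; exact h3 rfl
        have hc := hS'.choose_spec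
        rw [h4, ih _ (by rw [Finset.card_erase_of_mem hc]; omega), mon, mon,
          Finset.mul_prod_erase _ _ hc]
    exact fun S => h2 _ S rfl

lemma rep_gate (s : ℕ) (S : Finset (Fin s)) : Rep 13 (gate s S) := by
  classical
  unfold gate
  by_cases h : S.Nonempty
  · simp only [dif_pos h]
    exact rep_and ((pr h.choose).comp
        (LinearMap.fst (ZMod 2) (Fin s → ZMod 2) (Finset (Fin s) → ZMod 2)))
      ((pr (S.erase h.choose)).comp
        (LinearMap.snd (ZMod 2) (Fin s → ZMod 2) (Finset (Fin s) → ZMod 2)))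
      ((pr S).comp (LinearMap.snd (ZMod 2) (Fin s → ZMod 2) (Finset (Fin s) → ZMod 2)))
  · simp only [dif_neg h]
    have h1 := pd_pullback (V := (Fin s → ZMod 2) × (Finset (Fin s) → ZMod 2)) pd_delta
      ((pr S).comp (LinearMap.snd (ZMod 2) (Fin s → ZMod 2) (Finset (Fin s) → ZMod 2))) 1
    have h2 := rep_pd h1 13
    convert h2 using 2 with p
    have h3 : p.2 S = 1 ↔ p.2 S + 1 = 0 := by
      generalize p.2 S = t
      revert t; decide
    exact if_congr h3 rfl rfl

lemma rep_enc (s : ℕ) : Rep (2 ^ s * 13) (enc s) := by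
  have h := rep_prod (Finset.univ : Finset (Finset (Fin s))) 13 (fun S => gate s S)
    (fun S _ => rep_gate s S)
  have e : (Finset.univ : Finset (Finset (Fin s))).card = 2 ^ s := by simp
  rw [e] at h
  convert h using 2 with p
  exact gate_eq s p

lemma sg_sum {ι : Type*} (s : Finset ι) (f : ι → ZMod 2) : sg (∑ i ∈ s, f i) = ∏ i ∈ s, sg (f i) := by
  classical
  induction s using Finset.induction_on with
  | empty => simp
  | insert a s ha ih => rw [Finset.sum_insert ha, Finset.prod_insert ha, sg_add, ih]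

/-- bilinear phases -/
lemma pd_bil {α β : Type} [Fintype α] [Fintype β] (C : α → β → ZMod 2) :
    PD (fun p : (α → ZMod 2) × (β → ZMod 2) => sg (∑ a, ∑ b, C a b * (p.1 a * p.2 b))) := by
  simp only [sg_sum]
  apply pd_prod
  intro a _
  apply pd_prod
  intro b _
  rcases zmod2_cases (C a b) with h | h
  · simp only [h, zero_mul, sg_zero]
    exact pd_const 1
  · simp only [h, one_mul]
    exact pd_pullback0 pd_cz (LinearMap.prod
      ((pr a).comp (LinearMap.fst (ZMod 2) (α → ZMod 2) (β → ZMod 2)))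
      ((pr b).comp (LinearMap.snd (ZMod 2) (α → ZMod 2) (β → ZMod 2))))

lemma ind_eq {s : ℕ} (x u : Fin s → ZMod 2) :
    (if x = u then (1 : ZMod 2) else 0) =
      ∑ S : Finset (Fin s), mon S x * ∏ i ∈ Finset.univ \ S, (u i + 1) := by
  have h := Finset.prod_add x (fun i => u i + 1) (Finset.univ : Finset (Fin s))
  rw [Finset.powerset_univ] at h
  simp only [mon]
  rw [← h]
  by_cases hx : x = u
  · rw [if_pos hx, hx]
    symm
    apply Finset.prod_eq_one
    intro i _
    rw [← add_assoc, CharTwo.add_self_eq_zero, zero_add]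
  · rw [if_neg hx]
    have : ∃ i, x i ≠ u i := by
      by_contra h; push Not at h; exact hx (funext h)
    obtain ⟨i, hi⟩ := this
    symm
    apply Finset.prod_eq_zero (Finset.mem_univ i)
    rcases zmod2_cases (x i) with h1 | h1 <;> rcases zmod2_cases (u i) with h2 | h2 <;>
      rw [h1, h2] at hi ⊢ <;> revert hi <;> decide

lemma sum4 {α β M : Type*} [Fintype α] [Fintype β] [AddCommMonoid M] (f : α → α → β → β → M) :
    ∑ u, ∑ v, ∑ S, ∑ T, f u v S T = ∑ S, ∑ T, ∑ u, ∑ v, f u v S T := by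
  calc ∑ u, ∑ v, ∑ S, ∑ T, f u v S T = ∑ u, ∑ S, ∑ v, ∑ T, f u v S T :=
        Finset.sum_congr rfl (fun u _ => Finset.sum_comm)
    _ = ∑ S, ∑ u, ∑ v, ∑ T, f u v S T := Finset.sum_comm
    _ = ∑ S, ∑ u, ∑ T, ∑ v, f u v S T :=
        Finset.sum_congr rfl (fun S _ => Finset.sum_congr rfl (fun u _ => Finset.sum_comm))
    _ = ∑ S, ∑ T, ∑ u, ∑ v, f u v S T := Finset.sum_congr rfl (fun S _ => Finset.sum_comm)

lemma anf {s : ℕ} (B : (Fin s → ZMod 2) → (Fin s → ZMod 2) → ZMod 2) :
    ∃ C : Finset (Fin s) → Finset (Fin s) → ZMod 2, ∀ x y,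
      B x y = ∑ S, ∑ T, C S T * (mon S x * mon T y) := by
  refine ⟨fun S T => ∑ u, ∑ v, B u v * ((∏ i ∈ Finset.univ \ S, (u i + 1)) *
    ∏ i ∈ Finset.univ \ T, (v i + 1)), fun x y => ?_⟩
  have h1 : B x y = ∑ u, ∑ v, B u v * ((if x = u then (1 : ZMod 2) else 0) *
      (if y = v then (1 : ZMod 2) else 0)) := by
    simp
  calc B x y = ∑ u, ∑ v, ∑ S : Finset (Fin s), ∑ T : Finset (Fin s),
        B u v * ((mon S x * ∏ i ∈ Finset.univ \ S, (u i + 1)) *
          (mon T y * ∏ i ∈ Finset.univ \ T, (v i + 1))) := by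
        rw [h1]
        apply Finset.sum_congr rfl
        intro u _
        apply Finset.sum_congr rfl
        intro v _
        rw [ind_eq, ind_eq, Finset.sum_mul_sum, Finset.mul_sum]
        exact Finset.sum_congr rfl (fun S _ => Finset.mul_sum _ _ _)
    _ = ∑ S : Finset (Fin s), ∑ T : Finset (Fin s), ∑ u, ∑ v,
        B u v * ((mon S x * ∏ i ∈ Finset.univ \ S, (u i + 1)) *
          (mon T y * ∏ i ∈ Finset.univ \ T, (v i + 1))) := sum4 _
    _ = _ := by
        apply Finset.sum_congr rfl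
        intro S _
        apply Finset.sum_congr rfl
        intro T _
        rw [Finset.sum_mul]
        apply Finset.sum_congr rfl
        intro u _
        rw [Finset.sum_mul]
        apply Finset.sum_congr rfl
        intro v _
        ring

lemma enc_sum {s : ℕ} (x : Fin s → ZMod 2) (F : (Finset (Fin s) → ZMod 2) → ℂ) :
    ∑ e, enc s (x, e) * F e = F (fun S => mon S x) := by
  classical
  rw [Finset.sum_eq_single (fun S => mon S x)]
  · unfold enc; simp
  · intro e _ he
    unfold enc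
    rw [if_neg, zero_mul]
    intro h
    exact he (funext h)
  · intro h; exact absurd (Finset.mem_univ _) h

/-- every sign vector on `2 s` bits is obtained from `26 * 2 ^ s` copies -/
theorem rep_sign (s : ℕ) (B : (Fin s → ZMod 2) × (Fin s → ZMod 2) → ZMod 2) :
    Rep (26 * 2 ^ s) (fun p => sg (B p)) := by
  obtain ⟨C, hC⟩ := anf (fun x y => B (x, y))
  let X := Fin s → ZMod 2
  let E := Finset (Fin s) → ZMod 2
  have h1 : Rep (2 ^ s * 13) (fun p : (X × X) × (E × E) => enc s (p.1.1, p.2.1)) := by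
    have := rep_pullback (V := (X × X) × (E × E)) (rep_enc s)
      (LinearMap.prod ((LinearMap.fst _ _ _).comp (LinearMap.fst _ _ _))
        ((LinearMap.fst _ _ _).comp (LinearMap.snd _ _ _))) 0
    simpa using this
  have h2 : Rep (2 ^ s * 13) (fun p : (X × X) × (E × E) => enc s (p.1.2, p.2.2)) := by
    have := rep_pullback (V := (X × X) × (E × E)) (rep_enc s)
      (LinearMap.prod ((LinearMap.snd _ _ _).comp (LinearMap.fst _ _ _))
        ((LinearMap.snd _ _ _).comp (LinearMap.snd _ _ _))) 0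
    simpa using this
  have h3 : Rep 0 (fun p : (X × X) × (E × E) => sg (∑ a, ∑ b, C a b * (p.2.1 a * p.2.2 b))) :=
    rep_pd (pd_pullback0 (V := (X × X) × (E × E)) (pd_bil C) (LinearMap.snd _ _ _)) 0
  have h4 := rep_sum (rep_mul (rep_mul h1 h2) h3)
  have h5 : 2 ^ s * 13 + 2 ^ s * 13 + 0 = 26 * 2 ^ s := by ring
  rw [h5] at h4
  convert h4 using 2 with p
  obtain ⟨x, y⟩ := p
  rw [Fintype.sum_prod_type]
  simp only [mul_assoc]
  simp only [← Finset.mul_sum]
  rw [enc_sum x (fun e => ∑ e', enc s (y, e') * sg (∑ a, ∑ b, C a b * (e a * e' b)))]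
  rw [enc_sum y (fun e' => sg (∑ a, ∑ b, C a b * (mon a x * e' b)))]
  rw [← hC]

/-- **Main lower bound**: if the tensor power `(1, √2) ^ (⊗ d)` is a combination of `r` Pauli
determined states and `26 * 2 ^ s ≤ d` then `4 ^ s ≤ r * (4 * s + 1) ^ 2`. -/
theorem main_bound (d s r : ℕ) (hs : 26 * 2 ^ s ≤ d) (T : Fin r → (Fin d → ZMod 2) → ℂ)
    (hT : ∀ i, PD (T i)) (α : Fin r → ℂ) (h : ∀ z, vp d z = ∑ i, α i * T i z) :
    4 ^ s ≤ r * (4 * s + 1) ^ 2 := by
  have h1 := count_bound (V := (Fin s → ZMod 2) × (Fin s → ZMod 2)) (2 * s) r (by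
    rw [Fintype.card_prod, Fintype.card_fun, ZMod.card, Fintype.card_fin]; ring) (by
    intro f
    obtain ⟨K, hK, e⟩ := rep_mono (rep_sign s f) hs
    refine ⟨fun i x => ∑ z, K (x, z) * T i z, fun i => ?_, α, fun x => ?_⟩
    · exact pd_sum (ψ := fun p => K p * T i p.2)
        (pd_mul hK (pd_pullback0 (hT i) (LinearMap.snd (ZMod 2)
          ((Fin s → ZMod 2) × (Fin s → ZMod 2)) (Fin d → ZMod 2))))
    · have ex : sg (f x) = ∑ z, K (x, z) * vp d z := e x
      rw [ex]
      simp only [h, Finset.mul_sum]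
      rw [Finset.sum_comm]
      apply Finset.sum_congr rfl
      intro i _
      apply Finset.sum_congr rfl
      intro z _
      ring)
  rw [show 4 ^ s = 2 ^ (2 * s) by rw [pow_mul]; norm_num]
  refine h1.trans (le_of_eq ?_)
  ring

end Pool.Agent.W963.StabRank
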